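import Mathlib

/-!
# Shortest diamonds can be longer than `n - 1` (MP_b60c25_lc, Q1: the conjecture is false)

`D 4 ≥ 5` and `D 6 ≥ 6`: a 4-state automaton whose shortest diamond has length 5 and a 6-state
automaton whose shortest diamond has length 6.
-/

namespace Pool.Agent.Results.MP_b60c25_lc.LongDiamonds

/-- The global map of the range-2 automaton with local rule `f`. -/
def G {S : Type} (f : S → S → S) (c : ℤ → S) : ℤ → S := fun p => f (c p) (c (p + 1))

/-- A pair of words of length `l + 2` (with `l ≥ 1`) with the same first letter, the same last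
letter and the same image that differ in one of the `l` letters in between. -/
def IsDiamond {S : Type} (f : S → S → S) (l : ℕ) (w w' : Fin (l + 2) → S) : Prop :=
  1 ≤ l ∧ w 0 = w' 0 ∧ w (Fin.last (l + 1)) = w' (Fin.last (l + 1)) ∧
    (∀ i : Fin (l + 1), f (w i.castSucc) (w i.succ) = f (w' i.castSucc) (w' i.succ)) ∧
    ∃ i : Fin l, w i.succ.castSucc ≠ w' i.succ.castSucc

/-- The least length of a diamond. -/
noncomputable def delta {S : Type} (f : S → S → S) : ℕ :=
  sInf {l | ∃ w w' : Fin (l + 2) → S, IsDiamond f l w w'}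

/-- The largest value of `delta` for the non-surjective automata with `n` states. -/
noncomputable def D (n : ℕ) : ℕ :=
  sSup {d | ∃ f : Fin n → Fin n → Fin n, ¬ Function.Surjective (G f) ∧ d = delta f}

/-! ### Tools -/

/-- The possible last letters of the preimages of a word. -/
def tok {n : ℕ} (f : Fin n → Fin n → Fin n) (u : List (Fin n)) : Finset (Fin n) :=
  u.foldl (fun T c => Finset.univ.filter (fun b => ∃ a ∈ T, f a b = c)) Finset.univ

theorem tok_append {n : ℕ} (f : Fin n → Fin n → Fin n) (u : List (Fin n)) (c : Fin n) :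
    tok f (u ++ [c]) = Finset.univ.filter (fun b => ∃ a ∈ tok f u, f a b = c) := by
  unfold tok
  rw [List.foldl_append]
  rfl

theorem not_surjective {n : ℕ} (hn : 0 < n) (f : Fin n → Fin n → Fin n) (u : List (Fin n))
    (h : tok f u = ∅) : ¬ Function.Surjective (G f) := by
  intro hs
  obtain ⟨x, hx⟩ := hs (fun p => (u[p.toNat]?).getD ⟨0, hn⟩)
  have key : ∀ m : ℕ, m ≤ u.length → x m ∈ tok f (u.take m) := by
    intro m
    induction m with
    | zero => intro _; simp [tok]
    | succ m ih =>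
      intro hm
      rw [List.take_succ_eq_append_getElem (by omega), tok_append, Finset.mem_filter]
      refine ⟨Finset.mem_univ _, x m, ih (by omega), ?_⟩
      have h1 := congrFun hx (m : ℤ)
      simp only [G, Int.toNat_natCast] at h1
      rw [List.getElem?_eq_getElem (by omega)] at h1
      simpa using h1
  have h2 := key u.length le_rfl
  rw [List.take_length, h] at h2
  exact absurd h2 (Finset.notMem_empty _)

/-- A lower bound for the length of diamonds from a level function on the pairs of states. -/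
theorem diamond_ge {n : ℕ} (f : Fin n → Fin n → Fin n) (lev : Fin n → Fin n → ℕ) (d : ℕ)
    (h0 : ∀ x a b, f x a = f x b → a ≠ b → lev a b ≤ 1)
    (h1 : ∀ x y a b, x ≠ y → f x a = f y b → a ≠ b → lev a b ≤ lev x y + 1)
    (h2 : ∀ x y a, x ≠ y → f x a = f y a → d ≤ lev x y)
    (l : ℕ) (w w' : Fin (l + 2) → Fin n) (hw : IsDiamond f l w w') : d ≤ l := by
  by_contra hlt
  push Not at hlt
  obtain ⟨-, hfirst, hlast, himg, i0, hi0⟩ := hw
  have key : ∀ i : ℕ, ∀ hi : i < l + 2,
      (∀ j : ℕ, ∀ hj : j ≤ i, w ⟨j, by omega⟩ = w' ⟨j, by omega⟩) ∨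
      (w ⟨i, hi⟩ ≠ w' ⟨i, hi⟩ ∧ lev (w ⟨i, hi⟩) (w' ⟨i, hi⟩) ≤ i) := by
    intro i
    induction i with
    | zero =>
      intro hi
      left
      intro j hj
      obtain rfl : j = 0 := by omega
      exact hfirst
    | succ i ih =>
      intro hi
      have hf := himg ⟨i, by omega⟩
      simp only [Fin.castSucc_mk, Fin.succ_mk] at hf
      rcases ih (by omega) with h | ⟨hne, hlev⟩
      · by_cases he : w ⟨i + 1, hi⟩ = w' ⟨i + 1, hi⟩
        · left
          intro j hj
          rcases Nat.lt_or_ge j (i + 1) with h' | h'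
          · exact h j (by omega)
          · obtain rfl : j = i + 1 := by omega
            exact he
        · right
          refine ⟨he, ?_⟩
          rw [h i le_rfl] at hf
          have := h0 _ _ _ hf he
          omega
      · by_cases he : w ⟨i + 1, hi⟩ = w' ⟨i + 1, hi⟩
        · rw [he] at hf
          have := h2 _ _ _ hne hf
          omega
        · right
          exact ⟨he, (h1 _ _ _ _ hne hf he).trans (by omega)⟩
  rcases key (l + 1) (by omega) with h | ⟨h, -⟩
  · exact hi0 (h (i0 + 1) (by omega))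
  · exact h hlast

theorem delta_eq {n : ℕ} (f : Fin n → Fin n → Fin n) (lev : Fin n → Fin n → ℕ) (d : ℕ)
    (h0 : ∀ x a b, f x a = f x b → a ≠ b → lev a b ≤ 1)
    (h1 : ∀ x y a b, x ≠ y → f x a = f y b → a ≠ b → lev a b ≤ lev x y + 1)
    (h2 : ∀ x y a, x ≠ y → f x a = f y a → d ≤ lev x y)
    (w w' : Fin (d + 2) → Fin n) (hw : IsDiamond f d w w') : delta f = d := by
  apply le_antisymm
  · exact Nat.sInf_le ⟨w, w', hw⟩
  · refine le_csInf ⟨d, w, w', hw⟩ ?_
    rintro l ⟨v, v', hv⟩
    exact diamond_ge f lev d h0 h1 h2 l v v' hv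

theorem le_D {n d : ℕ} (f : Fin n → Fin n → Fin n) (hf : ¬ Function.Surjective (G f))
    (hd : delta f = d) : d ≤ D n := by
  refine le_csSup ?_ ⟨f, hf, hd.symm⟩
  refine Set.Finite.bddAbove ((Set.finite_range (fun f : Fin n → Fin n → Fin n => delta f)).subset ?_)
  rintro x ⟨g, -, rfl⟩
  exact ⟨g, rfl⟩

/-! ### The two automata -/

def f4 : Fin 4 → Fin 4 → Fin 4 :=
  ![![0, 0, 2, 3], ![1, 1, 3, 2], ![0, 3, 2, 1], ![3, 2, 1, 0]]

def lev4 : Fin 4 → Fin 4 → ℕ := ![![0, 1, 5, 3], ![1, 0, 3, 4], ![5, 3, 0, 2], ![3, 4, 2, 0]]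

def f6 : Fin 6 → Fin 6 → Fin 6 :=
  ![![1, 2, 5, 5, 0, 4], ![2, 0, 3, 3, 4, 1], ![4, 3, 0, 1, 2, 2], ![3, 4, 1, 0, 5, 5],
    ![1, 5, 2, 4, 0, 0], ![5, 1, 4, 2, 3, 3]]

def lev6 : Fin 6 → Fin 6 → ℕ :=
  ![![0, 2, 4, 4, 6, 3], ![2, 0, 6, 4, 3, 4], ![4, 6, 0, 1, 5, 4], ![4, 4, 1, 0, 4, 5],
    ![6, 3, 5, 4, 0, 1], ![3, 4, 4, 5, 1, 0]]

theorem f4_not_surjective : ¬ Function.Surjective (G f4) :=
  not_surjective (by norm_num) f4 [0, 3, 2, 0, 1] (by decide +kernel)

theorem delta_f4 : delta f4 = 5 :=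
  delta_eq f4 lev4 5 (by decide +kernel) (by decide +kernel) (by decide +kernel)
    ![0, 0, 2, 2, 3, 0, 0] ![0, 1, 3, 1, 1, 2, 0]
    ⟨by norm_num, by decide +kernel, by decide +kernel, by decide +kernel, by decide +kernel⟩

theorem f6_not_surjective : ¬ Function.Surjective (G f6) :=
  not_surjective (by norm_num) f6 [0, 5, 1, 0, 5, 5] (by decide +kernel)

theorem delta_f6 : delta f6 = 6 :=
  delta_eq f6 lev6 6 (by decide +kernel) (by decide +kernel) (by decide +kernel)
    ![0, 2, 1, 1, 4, 5, 4, 0] ![0, 3, 0, 4, 3, 3, 0, 0]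
    ⟨by norm_num, by decide +kernel, by decide +kernel, by decide +kernel, by decide +kernel⟩

/-- **MP_b60c25_lc, Q1.**  The conjecture `D n = n - 1` for all `n ≥ 2` is false: there are a
non-surjective automaton with 4 states whose shortest diamond has length 5 and a non-surjective
automaton with 6 states whose shortest diamond has length 6, so `D 4 ≥ 5` and `D 6 ≥ 6`. -/
theorem result :
    (∃ f : Fin 4 → Fin 4 → Fin 4, ¬ Function.Surjective (G f) ∧ delta f = 5) ∧
    (∃ f : Fin 6 → Fin 6 → Fin 6, ¬ Function.Surjective (G f) ∧ delta f = 6) ∧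
    5 ≤ D 4 ∧ 6 ≤ D 6 ∧ ¬ ∀ n : ℕ, 2 ≤ n → D n = n - 1 := by
  refine ⟨⟨f4, f4_not_surjective, delta_f4⟩, ⟨f6, f6_not_surjective, delta_f6⟩,
    le_D f4 f4_not_surjective delta_f4, le_D f6 f6_not_surjective delta_f6, fun h => ?_⟩
  have h1 := h 4 (by norm_num)
  have h2 := le_D f4 f4_not_surjective delta_f4
  omega

end Pool.Agent.Results.MP_b60c25_lc.LongDiamonds
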